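import Pool.Agent.Helper61.TQ.BS
import Pool.Agent.Helper61.TQ.ANS
import Pool.Agent.Helper61.TQ.NPC
import Pool.Agent.Helper61.TQ.PRF
import Pool.Agent.Helper61.TQ.SND
import Pool.Agent.Helper41.TQ.LEW
import Pool.Agent.Helper41.TQ.ZERO
import Pool.Agent.Helper41.TQ.LEARN
import Pool.Agent.Helper53.TQ.SYS
import Pool.Agent.Helper56.TQ.SATHARD
import Pool.Agent.Helper57.TQ.DICH
import Pool.Agent.Helper58.TQ.RLP
import Pool.Agent.Helper59.TQ.ISO
import Pool.Agent.Helper70.TQ.FRESH
import Pool.Agent.Helper76.TQ.HASH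
import Pool.Agent.Helper76.TQ.PP
import Pool.Agent.Helper81.TQ.SATNP
import Pool.Agent.Helper81.TQ.T1
import Pool.Agent.Helper89.TQ.AVG
import Pool.Agent.Helper89.TQ.OUT
import Pool.Agent.Helper89.TQ.XOR
import Pool.Agent.Helper91.TQ.NPALL
import Pool.Agent.Helper94.TQ.PROB
import Pool.Agent.Helper94.TQ.RND
import Pool.Agent.Helper94.TQ.CALL
import Pool.Agent.Helper23.TQ.CLS

set_option autoImplicit false

/-! Q1 of the problem, answered positively: under the two queries assumption the complement of SAT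
is the union of a language in NP and a language in BPP/1 (even in coRP/1). -/

namespace Pool.Agent.Results.MP_619c69_lc.TwoQueriesDecomposition

open Pool.Agent.Helper61.TQ Pool.Agent.Helper53.CL

/-- If `P^{SAT[1]} = P_∥^{SAT[2]}` then the complement of SAT is the union of a language `A` in NP
and a language `B` in BPP/1; moreover `B` can be taken in coRP/1. -/
theorem result (h : {L | InPSat 1 L} = {L | InPSat 2 L}) :
    ∃ A B : Set (List Bool), InNP A ∧ InBPP1 B ∧ InCoRP1 B ∧ SATᶜ = A ∪ B := by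
  have hSND : ST_SND := st_SND st_LEW
  have hDICH : ST_DICH := st_DICH st_LEW st_BS
  have hPRF : ST_PRF := st_PRF st_PP st_NPC
  have hT1 : ST_T1 := st_T1 hSND hDICH st_PP st_NPC st_NPALL hPRF st_AVG
  have hCALL : ST_CALL := st_CALL st_ANS st_NPC
  have hHASH : ST_HASH := st_HASH st_AVG
  have hISO : ST_ISO := st_ISO st_AVG hHASH
  have hFRESH : ST_FRESH := st_FRESH st_ANS st_AVG hISO
  have hPROB : ST_PROB := st_PROB st_ANS st_AVG hFRESH
  have hRLP : ST_RLP := st_RLP st_PP st_NPC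
  have hLEARN : ST_LEARN := st_LEARN st_RND (st_ZERO st_ANS) hRLP hPROB st_AVG st_PP
  have hXOR : ST_XOR := st_XOR st_CLS
  have hSYS : ST_SYS := st_SYS st_SATNP st_SATHARD hXOR st_LEW st_PP
  obtain ⟨S, hS⟩ := hSYS h
  have h1 := hT1 S (hCALL S (hLEARN S))
  rw [hS] at h1
  obtain ⟨A, B, hA, hB, hB', hAB⟩ := st_OUT st_CLS st_AVG h1
  exact ⟨A, B, hA, hB', hB, hAB⟩

end Pool.Agent.Results.MP_619c69_lc.TwoQueriesDecomposition
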